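import Pool.Agent.Helper20.QD.St1

/-!
# Project QD, part B: module TSA (points in the same component)
-/

open Filter Topology Matrix Set Metric
open scoped ComplexConjugate ComplexOrder

namespace Pool.Agent.Helper32.QD

open Pool.Agent.Helper35.PM Pool.Agent.Helper20.QD

private theorem tsa_ne {K : Set ℂ} {p z : ℂ} {ε : ℝ} (hε : ball p ε ⊆ Kᶜ) (hz : z ∈ K) :
    ε ≤ ‖z - p‖ := by
  by_contra h
  push Not at h
  exact hε (mem_ball_iff_norm.2 h) hz

private theorem tsa_near (hTPB : StTPB) {K : Set ℂ} {p p' : ℂ} {ε : ℝ} (hε : ball p ε ⊆ Kᶜ)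
    (hp' : ‖p' - p‖ < ε) : LogOn K (fun z => (z - p') / (z - p)) := by
  obtain ⟨-, -, -, -, h4, -⟩ := hTPB
  apply h4
  · apply ContinuousOn.div (by fun_prop) (by fun_prop)
    intro z hz h0
    have h1 := tsa_ne hε hz
    rw [h0, norm_zero] at h1
    exact absurd (lt_of_le_of_lt (norm_nonneg _) hp') (not_lt.2 h1)
  · intro z hz
    have h1 := tsa_ne hε hz
    have h2 : 0 < ‖z - p‖ := lt_of_lt_of_le (lt_of_le_of_lt (norm_nonneg _) hp') h1
    have h3 : z - p ≠ 0 := norm_pos_iff.1 h2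
    have h5 : (z - p') / (z - p) - 1 = (p - p') / (z - p) := by
      field_simp
      ring
    rw [h5, norm_div, div_lt_one h2, norm_sub_rev]
    linarith

private theorem tsa_open (hTPB : StTPB) {K : Set ℂ} (hK : IsCompact K) (q : ℂ) (b : Prop) :
    IsOpen {p : ℂ | p ∉ K ∧ (LogOn K (fun z => (z - p) / (z - q)) ↔ b)} := by
  have hT := hTPB
  obtain ⟨-, -, h3, h3', -, h6⟩ := hTPB
  rw [Metric.isOpen_iff]
  rintro p ⟨hp, hb⟩
  obtain ⟨ε, hε0, hε⟩ := Metric.isOpen_iff.1 hK.isClosed.isOpen_compl p hp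
  refine ⟨ε, hε0, fun p' hp' => ⟨hε hp', ?_⟩⟩
  rw [← hb]
  have hn : ‖p' - p‖ < ε := mem_ball_iff_norm.1 hp'
  have h1 := tsa_near hT hε hn
  have hpz : ∀ z ∈ K, z - p ≠ 0 := fun z hz h0 => hp ((sub_eq_zero.1 h0) ▸ hz)
  have hpz' : ∀ z ∈ K, z - p' ≠ 0 := fun z hz h0 => hε hp' ((sub_eq_zero.1 h0) ▸ hz)
  constructor
  · intro h
    refine h6 K K _ _ le_rfl (h3 K _ _ (h3' K _ (-1) h1) h) fun z hz => ?_
    have a1 := hpz z hz
    have a2 := hpz' z hz
    rw [_root_.zpow_neg_one, inv_div]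
    field_simp
  · intro h
    refine h6 K K _ _ le_rfl (h3 K _ _ h1 h) fun z hz => ?_
    have a1 := hpz z hz
    have a2 := hpz' z hz
    field_simp

theorem hTSA (hTPB : StTPB) : StTSA := by
  constructor
  · intro K C p q hK hC hCK hp hq
    by_contra hcon
    have hq' : q ∉ K := disjoint_left.1 hCK hq
    have hqq : LogOn K (fun z => (z - q) / (z - q)) := by
      refine ⟨fun _ => 0, continuousOn_const, fun z hz => ?_⟩
      have : z - q ≠ 0 := fun h0 => hq' ((sub_eq_zero.1 h0) ▸ hz)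
      rw [Complex.exp_zero]
      exact div_self this
    obtain ⟨x, hx, hx1, hx2⟩ := hC {p : ℂ | p ∉ K ∧ (LogOn K (fun z => (z - p) / (z - q)) ↔ True)}
      {p : ℂ | p ∉ K ∧ (LogOn K (fun z => (z - p) / (z - q)) ↔ False)}
      (tsa_open hTPB hK q True) (tsa_open hTPB hK q False) (by
        intro x hx
        have hxK := disjoint_left.1 hCK hx
        by_cases h : LogOn K (fun z => (z - x) / (z - q))
        · exact Or.inl ⟨hxK, iff_true_intro h⟩
        · exact Or.inr ⟨hxK, iff_false_intro h⟩)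
      ⟨q, hq, hq', iff_true_intro hqq⟩
      ⟨p, hp, disjoint_left.1 hCK hp, iff_false_intro hcon⟩
    exact hx2.2.1 (hx1.2.2 trivial)
  · intro K p R hK hR
    obtain ⟨-, -, h3, -, h4, h6⟩ := hTPB
    by_cases hp : p = 0
    · refine ⟨fun _ => 0, continuousOn_const, fun z hz => ?_⟩
      have h1 := mem_ball_zero_iff.1 (hK hz)
      rw [hp, norm_zero] at hR
      exact absurd (lt_of_le_of_lt (norm_nonneg _) h1) (not_lt.2 hR)
    · have h1 : LogOn K (fun z => 1 - z / p) := by
        apply h4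
        · fun_prop
        · intro z hz
          have h2 := mem_ball_zero_iff.1 (hK hz)
          have h5 : (1 - z / p) - 1 = -(z / p) := by ring
          rw [h5, norm_neg, norm_div, div_lt_one (norm_pos_iff.2 hp)]
          linarith
      have h2 : LogOn K (fun _ : ℂ => -p) :=
        ⟨fun _ => Complex.log (-p), continuousOn_const, fun z _ =>
          (Complex.exp_log (neg_ne_zero.2 hp)).symm⟩
      refine h6 K K _ _ le_rfl (h3 K _ _ h2 h1) fun z _ => ?_
      field_simp
      ring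

end Pool.Agent.Helper32.QD
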