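import Pool.Agent.Helper58.QD.StG

/-!
# MP_087a81_gt, project QD: module Grw (growth of the exhaustion function)
-/

set_option autoImplicit false

open Helper62.LH Helper62.DSH Helper58.QD MeasureTheory Set Filter Topology
open scoped ContDiff ENNReal

namespace Pool.Agent.Helper32.QD

theorem hGrw : SGrw := by
  intro n g Γ hg p b β κ r0 hB hL
  have hc : Continuous β := hL.smooth.continuous
  have hcomp : ∀ R, IsCompact {x | β x ≤ R} := by
    intro R
    refine (hB.prop (R + 1)).of_isClosed_subset (isClosed_le hc continuous_const) ?_
    intro x hx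
    have h1 := hL.near x
    have h2 := (abs_le.mp h1).1
    change β x ≤ R at hx
    change b x ≤ R + 1
    linarith
  refine ⟨hcomp, ?_, 2 * |b p| + |r0| + 2, ?_, ?_⟩
  · intro s t
    refine (hcomp t).of_isClosed_subset ?_ ?_
    · exact (isClosed_le continuous_const hc).inter (isClosed_le hc continuous_const)
    · intro x hx
      exact hx.2
  · have h1 := abs_nonneg (b p)
    have h2 := abs_nonneg r0
    linarith
  · intro x hx
    have h1 := abs_le.mp (hL.near x)
    have h2 := abs_le.mp (hB.lip p x)
    have h3 := le_abs_self (b p)
    have h4 := le_abs_self r0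
    have h5 := abs_nonneg (b p)
    have h6 := abs_nonneg r0
    have h7 : r0 ≤ dg g p x := by
      by_contra hcon
      push Not at hcon
      linarith [h1.1, h1.2, h2.1, h2.2]
    have h8 := hB.gro x h7
    constructor
    · linarith [h1.1, h1.2]
    · linarith [h1.1, h1.2, h2.1, h2.2]

end Pool.Agent.Helper32.QD
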