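import Pool.Agent.Helper58.QD.StF

/-!
# MP_087a81_gt, project QD: module Nnk (comparison of the norms of forms on compact sets)
-/

set_option autoImplicit false

open Helper62.LH Helper62.DSH Helper58.QD MeasureTheory Set Filter Topology
open scoped ContDiff ENNReal

namespace Pool.Agent.Helper32.QD

variable {n k : ℕ}

private theorem nsq_fr (hCfr : StCfr) {g : E n → Bl n} {x : E n} {f : Fin n → E n}
    (hf : Onb g x f) (α : Fk n k) :
    nsq g k x α = (∑ I : Fin k → Fin n, α (fun a => f (I a)) ^ 2) / k.factorial := by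
  have h := hCfr n g x f hf k α.toMultilinearMap α.toMultilinearMap
  have h2 : ∀ v : Fin k → E n, α.toMultilinearMap v = α v := fun v => rfl
  simp only [h2] at h
  unfold nsq
  rw [h]
  congr 1
  exact Finset.sum_congr rfl fun I _ => by ring

/-- a form which vanishes on all families from a spanning family is zero -/
private theorem eq_zero_of (α : Fk n k) (f : Fin n → E n) (c : E n → Fin n → ℝ)
    (hf : ∀ v, ∑ a, c v a • f a = v)
    (h : ∀ I : Fin k → Fin n, α (fun i => f (I i)) = 0) : α = 0 := by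
  ext v
  have h1 : v = fun i => ∑ a, c (v i) a • f a := by
    funext i
    exact (hf (v i)).symm
  rw [h1]
  have h2 := α.toMultilinearMap.map_sum (fun (i : Fin k) (a : Fin n) => c (v i) a • f a)
  have h3 : α (fun i => ∑ a, c (v i) a • f a) =
      α.toMultilinearMap (fun i => ∑ a, c (v i) a • f a) := rfl
  rw [h3, h2]
  refine Finset.sum_eq_zero fun I _ => ?_
  rw [α.toMultilinearMap.map_smul_univ]
  have h4 : α.toMultilinearMap (fun i => f (I i)) = 0 := h I
  rw [h4, smul_zero]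

/-- the space of forms is finite dimensional -/
private theorem fd : FiniteDimensional ℝ (Fk n k) := by
  let L : Fk n k →ₗ[ℝ] ((Fin k → Fin n) → ℝ) :=
    { toFun := fun α I => α (fun a => ee (I a))
      map_add' := fun α β => rfl
      map_smul' := fun c α => rfl }
  refine Module.Finite.of_injective L ?_
  rw [← LinearMap.ker_eq_bot, LinearMap.ker_eq_bot']
  intro α h
  refine eq_zero_of α ee (fun v a => v a) ?_ (fun I => congrFun h I)
  intro v
  ext j
  simp [ee, Finset.sum_apply, Pi.single_apply]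

private theorem nsq_smul (g : E n → Bl n) (x : E n) (t : ℝ) (α : Fk n k) :
    nsq g k x (t • α) = t ^ 2 * nsq g k x α := by
  have h1 : ∀ v : Fin k → E n, (t • α) v = t * α v := fun v => rfl
  unfold nsq
  simp only [h1]
  rw [mul_div_assoc', Finset.mul_sum]
  congr 1
  refine Finset.sum_congr rfl fun I _ => ?_
  rw [Finset.mul_sum]
  refine Finset.sum_congr rfl fun J _ => ?_
  ring

private theorem nsq_pos (hOnb : StOnb) (hCfr : StCfr) {g : E n → Bl n} (hg : IsMet g) (x : E n)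
    (α : Fk n k) (h0 : α ≠ 0) : 0 < nsq g k x α := by
  obtain ⟨f, hf⟩ := hOnb n g hg x
  rw [nsq_fr hCfr hf]
  have h1 : ∃ I : Fin k → Fin n, α (fun a => f (I a)) ≠ 0 := by
    by_contra hcon
    push Not at hcon
    exact h0 (eq_zero_of α f (fun v a => g x v (f a)) hf.expd hcon)
  obtain ⟨I, hI⟩ := h1
  apply div_pos
  · exact Finset.sum_pos' (fun J _ => sq_nonneg _) ⟨I, Finset.mem_univ _, by positivity⟩
  · exact_mod_cast k.factorial_pos

private theorem nsq_cont2 {g : E n → Bl n} (hgi : ∀ i j, ContDiff ℝ ∞ (fun x => gi g x i j)) :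
    Continuous (fun p : E n × Fk n k => nsq g k p.1 p.2) := by
  unfold nsq
  apply Continuous.div_const
  apply continuous_finsetSum _ fun I _ => ?_
  apply continuous_finsetSum _ fun J _ => ?_
  have h1 : ∀ v : Fin k → E n, Continuous (fun p : E n × Fk n k => p.2 v) := fun v =>
    (ContinuousAlternatingMap.apply ℝ (E n) ℝ v).continuous.comp continuous_snd
  refine Continuous.mul ?_ ((h1 _).mul (h1 _))
  exact continuous_finsetProd _ fun a _ => (hgi _ _).continuous.comp continuous_fst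

private theorem bounds (hOnb : StOnb) (hCfr : StCfr) {g : E n → Bl n} (hg : IsMet g)
    (hgi : ∀ i j, ContDiff ℝ ∞ (fun x => gi g x i j)) {K : Set (E n)} (hK : IsCompact K) :
    ∃ m M : ℝ, 0 < m ∧ 0 < M ∧ ∀ x ∈ K, ∀ α : Fk n k,
      m * ‖α‖ ^ 2 ≤ nsq g k x α ∧ nsq g k x α ≤ M * ‖α‖ ^ 2 := by
  have hfd : FiniteDimensional ℝ (Fk n k) := fd
  have hps : ProperSpace (Fk n k) := FiniteDimensional.proper_real _
  have hc : Continuous (fun p : E n × Fk n k => nsq g k p.1 p.2) := nsq_cont2 hgi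
  have hS : IsCompact (K ×ˢ Metric.sphere (0 : Fk n k) 1) := hK.prod (isCompact_sphere _ _)
  have hz : ∀ x, nsq g k x (0 : Fk n k) = 0 := by
    intro x
    have := nsq_smul (k := k) g x 0 (0 : Fk n k)
    simpa using this
  have hnorm : ∀ α : Fk n k, α ≠ 0 → ‖α‖⁻¹ • α ∈ Metric.sphere (0 : Fk n k) 1 := by
    intro α h0
    rw [mem_sphere_zero_iff_norm, norm_smul, norm_inv, norm_norm,
      inv_mul_cancel₀ (norm_ne_zero_iff.mpr h0)]
  have hscale : ∀ x (α : Fk n k), α ≠ 0 →
      nsq g k x α = ‖α‖ ^ 2 * nsq g k x (‖α‖⁻¹ • α) := by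
    intro x α h0
    rw [nsq_smul]
    have : ‖α‖ ≠ 0 := norm_ne_zero_iff.mpr h0
    field_simp
  by_cases hne : (K ×ˢ Metric.sphere (0 : Fk n k) 1).Nonempty
  · obtain ⟨p, hp, hmin⟩ := hS.exists_isMinOn hne hc.continuousOn
    obtain ⟨q, hq, hmax⟩ := hS.exists_isMaxOn hne hc.continuousOn
    have hpos : ∀ r ∈ K ×ˢ Metric.sphere (0 : Fk n k) 1, 0 < nsq g k r.1 r.2 := by
      intro r hr
      refine nsq_pos hOnb hCfr hg r.1 r.2 ?_
      intro h0
      have h1 : ‖r.2‖ = 1 := mem_sphere_zero_iff_norm.mp hr.2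
      rw [h0, norm_zero] at h1
      exact zero_ne_one h1
    refine ⟨nsq g k p.1 p.2, nsq g k q.1 q.2, hpos p hp, hpos q hq, ?_⟩
    intro x hx α
    by_cases h0 : α = 0
    · rw [h0, hz]
      simp
    · have hm : (x, ‖α‖⁻¹ • α) ∈ K ×ˢ Metric.sphere (0 : Fk n k) 1 :=
        Set.mk_mem_prod hx (hnorm α h0)
      have h1 := isMinOn_iff.mp hmin _ hm
      have h2 := isMaxOn_iff.mp hmax _ hm
      dsimp only at h1 h2
      rw [hscale x α h0]
      generalize nsq g k x (‖α‖⁻¹ • α) = z at h1 h2 ⊢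
      have h3 : (0 : ℝ) ≤ ‖α‖ ^ 2 := sq_nonneg _
      constructor
      · rw [mul_comm]
        exact mul_le_mul_of_nonneg_left h1 h3
      · rw [mul_comm (nsq g k q.1 q.2)]
        exact mul_le_mul_of_nonneg_left h2 h3
  · refine ⟨1, 1, one_pos, one_pos, ?_⟩
    intro x hx α
    by_cases h0 : α = 0
    · rw [h0, hz]
      simp
    · have hm : (x, ‖α‖⁻¹ • α) ∈ K ×ˢ Metric.sphere (0 : Fk n k) 1 :=
        Set.mk_mem_prod hx (hnorm α h0)
      exact (hne (Set.nonempty_of_mem hm)).elim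

theorem hNnk : StChe → StShp → StOnb → StCfr → SNnk := by
  intro hChe hShp hOnb hCfr n k g hg K hK
  obtain ⟨Γ, hΓ⟩ := hChe n g hg
  obtain ⟨-, -, hgi, -⟩ := hShp n g Γ hg hΓ
  constructor
  · obtain ⟨m, M, hm, hM, hb⟩ := bounds (k := k) hOnb hCfr hg hgi hK
    refine ⟨√m, √M, Real.sqrt_pos.mpr hm, Real.sqrt_pos.mpr hM, ?_⟩
    intro x hx α
    obtain ⟨h1, h2⟩ := hb x hx α
    have e : ∀ c : ℝ, 0 < c → √c * ‖α‖ = √(c * ‖α‖ ^ 2) := by
      intro c hc
      rw [Real.sqrt_mul hc.le, Real.sqrt_sq (norm_nonneg _)]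
    unfold nn
    rw [e m hm, e M hM]
    exact ⟨Real.sqrt_le_sqrt h1, Real.sqrt_le_sqrt h2⟩
  · intro κ hκ
    have hfd : FiniteDimensional ℝ (Fk n k) := fd
    have hps : ProperSpace (Fk n k) := FiniteDimensional.proper_real _
    have hK1 : IsCompact (Metric.cthickening 1 K) := hK.cthickening
    obtain ⟨m, M, hm, hM, hb⟩ := bounds (k := k) hOnb hCfr hg hgi hK1
    have hS : IsCompact ((Metric.cthickening 1 K) ×ˢ Metric.sphere (0 : Fk n k) 1) :=
      hK1.prod (isCompact_sphere _ _)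
    have hc : Continuous (fun p : E n × Fk n k => nsq g k p.1 p.2) := nsq_cont2 hgi
    have hu := hS.uniformContinuousOn_of_continuous hc.continuousOn
    rw [Metric.uniformContinuousOn_iff] at hu
    obtain ⟨δ, hδ, hδ2⟩ := hu (κ * m) (mul_pos hκ hm)
    refine ⟨min (δ / 2) 1, lt_min (half_pos hδ) one_pos, ?_⟩
    intro x hx y hxy α
    by_cases h0 : α = 0
    · have hz : ∀ x, nsq g k x (0 : Fk n k) = 0 := by
        intro x
        have := nsq_smul (k := k) g x 0 (0 : Fk n k)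
        simpa using this
      rw [h0, hz, hz]
      simp
    have h1 : ‖x - y‖ ≤ δ / 2 := hxy.trans (min_le_left _ _)
    have h2 : ‖x - y‖ ≤ 1 := hxy.trans (min_le_right _ _)
    have hα : ‖α‖ ≠ 0 := norm_ne_zero_iff.mpr h0
    have hβ : ‖α‖⁻¹ • α ∈ Metric.sphere (0 : Fk n k) 1 := by
      rw [mem_sphere_zero_iff_norm, norm_smul, norm_inv, norm_norm, inv_mul_cancel₀ hα]
    have hx1 : x ∈ Metric.cthickening 1 K := Metric.self_subset_cthickening K hx
    have hy1 : y ∈ Metric.cthickening 1 K := by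
      refine Metric.mem_cthickening_of_dist_le y x 1 K hx ?_
      rw [dist_comm, dist_eq_norm]
      exact h2
    have h3 := hδ2 (x, ‖α‖⁻¹ • α) ⟨hx1, hβ⟩ (y, ‖α‖⁻¹ • α) ⟨hy1, hβ⟩ (by
      rw [Prod.dist_eq]
      simp only [dist_self]
      rw [max_eq_left dist_nonneg, dist_eq_norm]
      linarith)
    rw [Real.dist_eq] at h3
    have h4 := (abs_lt.mp h3).2
    have h5 := (hb y hy1 (‖α‖⁻¹ • α)).1
    have h6 : ‖‖α‖⁻¹ • α‖ = 1 := mem_sphere_zero_iff_norm.mp hβ
    rw [h6] at h5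
    simp only [nsq_smul] at h4 h5
    have h7 : (0 : ℝ) < ‖α‖⁻¹ ^ 2 := by positivity
    have h8 : ‖α‖⁻¹ ^ 2 * nsq g k x α ≤ ‖α‖⁻¹ ^ 2 * ((1 + κ) * nsq g k y α) := by
      have h9 : κ * m ≤ κ * (‖α‖⁻¹ ^ 2 * nsq g k y α) := by
        apply mul_le_mul_of_nonneg_left _ hκ.le
        linarith
      nlinarith
    exact le_of_mul_le_mul_left h8 h7

end Pool.Agent.Helper32.QD
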